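import Pool.Agent.H165R3.BPE

set_option autoImplicit false
set_option linter.unusedSectionVars false

open Filter Topology MeasureTheory

noncomputable section

namespace Pool.Agent.H922R3.TA

/-- Averages along residue classes. -/
theorem avg_classes {u : ℕ → ℂ} {C : ℝ} (hb : ∀ n, ‖u n‖ ≤ C) {q : ℕ} (hq : 1 ≤ q)
    (h : ∀ r, ∃ L, Tendsto (fun N : ℕ => (N : ℂ)⁻¹ * ∑ n ∈ Finset.range N, u (r + q * n)) atTop
      (𝓝 L)) :
    ∃ L, Tendsto (fun N : ℕ => (N : ℂ)⁻¹ * ∑ n ∈ Finset.range N, u n) atTop (𝓝 L) := by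
  have hC : 0 ≤ C := (norm_nonneg _).trans (hb 0)
  choose L hL using h
  have hq0 : (q : ℂ) ≠ 0 := by
    have : q ≠ 0 := by omega
    exact_mod_cast this
  have hblock : ∀ M : ℕ, ∑ n ∈ Finset.range (q * M), u n =
      ∑ r ∈ Finset.range q, ∑ n ∈ Finset.range M, u (r + q * n) := by
    intro M
    induction M with
    | zero => simp
    | succ M ih =>
      rw [Nat.mul_succ, Finset.sum_range_add, ih, ← Finset.sum_add_distrib]
      apply Finset.sum_congr rfl
      intro r _
      rw [Finset.sum_range_succ, add_comm (q * M) r]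
  have hT : Tendsto (fun M : ℕ => (q : ℂ)⁻¹ * ∑ r ∈ Finset.range q,
      ((M : ℂ)⁻¹ * ∑ n ∈ Finset.range M, u (r + q * n))) atTop
      (𝓝 ((q : ℂ)⁻¹ * ∑ r ∈ Finset.range q, L r)) :=
    (tendsto_finsetSum _ fun r _ => hL r).const_mul _
  refine ⟨(q : ℂ)⁻¹ * ∑ r ∈ Finset.range q, L r, ?_⟩
  have hT' := hT.comp (Nat.tendsto_div_const_atTop (n := q) (by omega))
  have hdiff : Tendsto (fun N : ℕ => (N : ℂ)⁻¹ * ∑ n ∈ Finset.range N, u n -
      (q : ℂ)⁻¹ * ∑ r ∈ Finset.range q,
      (((N / q : ℕ) : ℂ)⁻¹ * ∑ n ∈ Finset.range (N / q), u (r + q * n))) atTop (𝓝 0) := by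
    rw [tendsto_zero_iff_norm_tendsto_zero]
    have hlim : Tendsto (fun N : ℕ => 2 * q * C * ((N : ℝ)⁻¹)) atTop (𝓝 0) := by
      have := (tendsto_inv_atTop_nhds_zero_nat (𝕜 := ℝ)).const_mul (2 * q * C)
      rwa [mul_zero] at this
    refine squeeze_zero' (Eventually.of_forall fun N => norm_nonneg _) ?_ hlim
    filter_upwards [eventually_ge_atTop q] with N hN
    set M := N / q with hM
    have hM1 : 1 ≤ M := (Nat.one_le_div_iff (by omega)).mpr hN
    have hqM : q * M ≤ N := Nat.mul_div_le N q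
    have hqM' : N < q * M + q := by
      have := Nat.lt_mul_div_succ N (show 0 < q by omega)
      rw [← hM] at this
      linarith
    have hM0 : (M : ℂ) ≠ 0 := by
      have : M ≠ 0 := by omega
      exact_mod_cast this
    have hN0' : 0 < N := by omega
    have hN0 : (N : ℂ) ≠ 0 := by exact_mod_cast hN0'.ne'
    have e1 : (q : ℂ)⁻¹ * ∑ r ∈ Finset.range q,
      ((M : ℂ)⁻¹ * ∑ n ∈ Finset.range M, u (r + q * n)) =
        ((q : ℂ) * M)⁻¹ * ∑ n ∈ Finset.range (q * M), u n := by
      rw [hblock, ← Finset.mul_sum, ← mul_assoc, mul_inv]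
    have e2 : ∑ n ∈ Finset.range N, u n = ∑ n ∈ Finset.range (q * M), u n +
        ∑ n ∈ Finset.Ico (q * M) N, u n := (Finset.sum_range_add_sum_Ico _ hqM).symm
    rw [e1, e2]
    set S := ∑ n ∈ Finset.range (q * M), u n
    set R := ∑ n ∈ Finset.Ico (q * M) N, u n
    have hR : ‖R‖ ≤ q * C := by
      refine (norm_sum_le _ _).trans ?_
      calc ∑ n ∈ Finset.Ico (q * M) N, ‖u n‖ ≤ ∑ n ∈ Finset.Ico (q * M) N, C :=
            Finset.sum_le_sum fun n _ => hb n
        _ = ((N - q * M : ℕ) : ℝ) * C := by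
            rw [Finset.sum_const, Nat.card_Ico, nsmul_eq_mul]
        _ ≤ q * C := by
            apply mul_le_mul_of_nonneg_right _ hC
            have : N - q * M ≤ q := by omega
            exact_mod_cast this
    have hS : ‖S‖ ≤ q * M * C := by
      refine (norm_sum_le _ _).trans ?_
      calc ∑ n ∈ Finset.range (q * M), ‖u n‖ ≤ ∑ n ∈ Finset.range (q * M), C :=
            Finset.sum_le_sum fun n _ => hb n
        _ = q * M * C := by
            rw [Finset.sum_const, Finset.card_range, nsmul_eq_mul]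
            push_cast
            ring
    have e3 : (N : ℂ)⁻¹ * (S + R) - ((q : ℂ) * M)⁻¹ * S =
        (N : ℂ)⁻¹ * (R - ((N - q * M : ℕ) : ℂ) * (((q : ℂ) * M)⁻¹ * S)) := by
      rw [Nat.cast_sub hqM]
      push_cast
      field_simp
      ring
    rw [e3, norm_mul, norm_inv, Complex.norm_natCast, mul_comm (2 * (q : ℝ) * C)]
    apply mul_le_mul_of_nonneg_left _ (by positivity)
    refine (norm_sub_le _ _).trans ?_
    have h5 : ‖((N - q * M : ℕ) : ℂ) * (((q : ℂ) * M)⁻¹ * S)‖ ≤ q * C := by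
      rw [norm_mul, Complex.norm_natCast, norm_mul, norm_inv, norm_mul, Complex.norm_natCast,
        Complex.norm_natCast]
      have hqM0 : (0 : ℝ) < (q : ℝ) * M := by
        have h6 : 0 < q * M := by positivity
        exact_mod_cast h6
      have h7 : ((q : ℝ) * M)⁻¹ * ‖S‖ ≤ C := by
        rw [inv_mul_le_iff₀ hqM0]
        exact hS
      have h8 : ((N - q * M : ℕ) : ℝ) ≤ q := by
        have : N - q * M ≤ q := by omega
        exact_mod_cast this
      exact mul_le_mul h8 h7 (by positivity) (by positivity)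
    linarith
  have := hdiff.add hT'
  rw [zero_add] at this
  refine this.congr fun N => ?_
  simp only [Function.comp_apply, sub_add_cancel]

section general

variable {X : Type*} [MeasurableSpace X] {J : Type*} [Fintype J] [DecidableEq J]

/-- The multiple averages. -/
def Av (T : J → X → X) (F : J → X → ℂ) (N : ℕ) (x : X) : ℂ :=
  (N : ℂ)⁻¹ * ∑ n ∈ Finset.range N, ∏ j, F j ((T j)^[n] x)

/-- Convergence almost everywhere. -/
def Cv (μ : Measure X) (T : J → X → X) (F : J → X → ℂ) : Prop :=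
  ∀ᵐ x ∂μ, ∃ L, Tendsto (fun N => Av T F N x) atTop (𝓝 L)

/-- Bounded measurable functions. -/
def BM (f : X → ℂ) : Prop := Measurable f ∧ ∃ C : ℝ, ∀ x, ‖f x‖ ≤ C

theorem prod_update (T : J → X → X) (F : J → X → ℂ) (j : J) (f : X → ℂ) (n : ℕ) (x : X) :
    ∏ l, (Function.update F j f) l ((T l)^[n] x) =
      f ((T j)^[n] x) * ∏ l ∈ Finset.univ.erase j, F l ((T l)^[n] x) := by
  rw [← Finset.mul_prod_erase _ _ (Finset.mem_univ j), Function.update_self]
  congr 1
  apply Finset.prod_congr rfl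
  intro l hl
  rw [Function.update_of_ne (Finset.ne_of_mem_erase hl)]

theorem Av_update (T : J → X → X) (F : J → X → ℂ) (j : J) (f : X → ℂ) (N : ℕ) (x : X) :
    Av T (Function.update F j f) N x = (N : ℂ)⁻¹ * ∑ n ∈ Finset.range N,
      f ((T j)^[n] x) * ∏ l ∈ Finset.univ.erase j, F l ((T l)^[n] x) := by
  rw [Av]
  congr 1
  exact Finset.sum_congr rfl fun n _ => prod_update T F j f n x

theorem Cv_add {μ : Measure X} {T : J → X → X} {F : J → X → ℂ} {j : J} {f g : X → ℂ}
    (hf : Cv μ T (Function.update F j f)) (hg : Cv μ T (Function.update F j g)) :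
    Cv μ T (Function.update F j (f + g)) := by
  filter_upwards [hf, hg] with x hx hx'
  obtain ⟨L, hL⟩ := hx
  obtain ⟨L', hL'⟩ := hx'
  refine ⟨L + L', (hL.add hL').congr fun N => ?_⟩
  rw [Av_update, Av_update, Av_update, ← mul_add, ← Finset.sum_add_distrib]
  congr 1
  apply Finset.sum_congr rfl
  intro n _
  rw [Pi.add_apply, add_mul]

theorem Cv_smul {μ : Measure X} {T : J → X → X} {F : J → X → ℂ} {j : J} {f : X → ℂ} (c : ℂ)
    (hf : Cv μ T (Function.update F j f)) :
    Cv μ T (Function.update F j (c • f)) := by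
  filter_upwards [hf] with x hx
  obtain ⟨L, hL⟩ := hx
  refine ⟨c * L, (hL.const_mul c).congr fun N => ?_⟩
  rw [Av_update, Av_update, ← mul_assoc, mul_comm c, mul_assoc, Finset.mul_sum]
  congr 1
  apply Finset.sum_congr rfl
  intro n _
  rw [Pi.smul_apply, smul_eq_mul, mul_assoc]

theorem Cv_zero {μ : Measure X} {T : J → X → X} {F : J → X → ℂ} {j : J} :
    Cv μ T (Function.update F j (0 : X → ℂ)) := by
  refine Eventually.of_forall fun x => ⟨0, ?_⟩
  refine Tendsto.congr (fun N => ?_) (tendsto_const_nhds (x := (0 : ℂ)))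
  rw [Av_update]
  simp

/-- The class of good functions is closed under limits in `L¹`. -/
theorem Cv_closed {μ : Measure X} [IsProbabilityMeasure μ] {T : J → X → X}
    (hT : ∀ j, MeasurePreserving (T j) μ μ) {F : J → X → ℂ} (hF : ∀ l, BM (F l)) {j : J}
    {f : X → ℂ} (hf : BM f)
    (h : ∀ ε : ℝ, 0 < ε → ∃ g : X → ℂ, BM g ∧ ∫ x, ‖f x - g x‖ ∂μ ≤ ε ∧
      Cv μ T (Function.update F j g)) :
    Cv μ T (Function.update F j f) := by
  obtain ⟨hfm, Cf, hCf⟩ := hf
  choose hFm CF hCF using hF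
  set D : ℝ := ∏ l ∈ Finset.univ.erase j, (|CF l| + 1) with hD
  have hD0 : 0 < D := Finset.prod_pos fun l _ => by positivity
  have hDb : ∀ (n : ℕ) (x : X), ‖∏ l ∈ Finset.univ.erase j, F l ((T l)^[n] x)‖ ≤ D := by
    intro n x
    rw [norm_prod]
    apply Finset.prod_le_prod (fun l _ => norm_nonneg _)
    intro l _
    exact ((hCF l _).trans (le_abs_self _)).trans (by linarith)
  set G := Function.update F j f with hG
  have hbad : ∀ δ : ℝ, 0 < δ → ∀ᵐ x ∂μ, ∃ N₀, ∀ N, N₀ ≤ N → ∀ M, N₀ ≤ M →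
      ‖Av T G N x - Av T G M x‖ ≤ δ := by
    intro δ hδ
    rw [ae_iff, ← nonpos_iff_eq_zero]
    apply ENNReal.le_of_forall_pos_le_add
    intro ε hε _
    rw [zero_add]
    have hε' : (0 : ℝ) < ε := by exact_mod_cast hε
    obtain ⟨g, ⟨hgm, Cg, hCg⟩, hfg, hg⟩ := h (ε * (δ / (4 * D))) (by positivity)
    let k : X → ℝ := fun x => ‖f x - g x‖
    have hkm : Measurable k := (hfm.sub hgm).norm
    have hkb : ∀ x, |k x| ≤ Cf + Cg := fun x => by
      rw [abs_of_nonneg (norm_nonneg _)]
      exact (norm_sub_le _ _).trans (add_le_add (hCf x) (hCg x))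
    have hB := H165R3.BPE.birkhoff (hT j) k hkm (Cf + Cg) hkb
    set E := μ[k | MeasurableSpace.invariants (T j)] with hE
    have hle := MeasurableSpace.invariants_le (T j)
    have hEint : ∫ x, E x ∂μ = ∫ x, k x ∂μ := integral_condExp hle
    have hE0 : 0 ≤ᵐ[μ] E := by
      apply condExp_nonneg
      exact Eventually.of_forall fun x => norm_nonneg _
    have hEi : Integrable E μ := integrable_condExp
    have hmark := mul_meas_ge_le_integral_of_nonneg hE0 hEi (δ / (4 * D))
    rw [hEint] at hmark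
    have hmark' : μ.real {x | δ / (4 * D) ≤ E x} ≤ ε := by
      have h1 : δ / (4 * D) * μ.real {x | δ / (4 * D) ≤ E x} ≤ δ / (4 * D) * ε := by
        refine hmark.trans (hfg.trans ?_)
        rw [mul_comm]
      exact le_of_mul_le_mul_left h1 (by positivity)
    have hsub : ∀ᵐ x ∂μ, x ∈ {x | ¬ ∃ N₀, ∀ N, N₀ ≤ N → ∀ M, N₀ ≤ M →
        ‖Av T G N x - Av T G M x‖ ≤ δ} → x ∈ {x | δ / (4 * D) ≤ E x} := by
      filter_upwards [hB, hg] with x hx1 hx2 hx3
      show δ / (4 * D) ≤ E x
      by_contra hcon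
      rw [not_le] at hcon
      apply hx3
      obtain ⟨L, hL⟩ := hx2
      have h2 := (tendsto_order.mp hx1).2 _ hcon
      obtain ⟨N₁, hN₁⟩ := eventually_atTop.mp h2
      obtain ⟨N₂, hN₂⟩ := Metric.tendsto_atTop.mp hL (δ / 4) (by positivity)
      have hclose : ∀ N, N₁ ≤ N → ‖Av T G N x - Av T (Function.update F j g) N x‖ ≤ δ / 4 := by
        intro N hN
        rw [hG, Av_update, Av_update, ← mul_sub, ← Finset.sum_sub_distrib, norm_mul, norm_inv,
          Complex.norm_natCast]
        have h3 : ‖∑ n ∈ Finset.range N, (f ((T j)^[n] x) *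
            ∏ l ∈ Finset.univ.erase j, F l ((T l)^[n] x) - g ((T j)^[n] x) *
            ∏ l ∈ Finset.univ.erase j, F l ((T l)^[n] x))‖ ≤
            D * ∑ n ∈ Finset.range N, k ((T j)^[n] x) := by
          refine (norm_sum_le _ _).trans ?_
          rw [Finset.mul_sum]
          apply Finset.sum_le_sum
          intro n _
          rw [← sub_mul, norm_mul, mul_comm]
          exact mul_le_mul_of_nonneg_right (hDb n x) (norm_nonneg _)
        calc (N : ℝ)⁻¹ * ‖_‖ ≤ (N : ℝ)⁻¹ * (D * ∑ n ∈ Finset.range N, k ((T j)^[n] x)) :=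
              mul_le_mul_of_nonneg_left h3 (by positivity)
          _ = D * ((N : ℝ)⁻¹ * ∑ n ∈ Finset.range N, k ((T j)^[n] x)) := by ring
          _ ≤ D * (δ / (4 * D)) := mul_le_mul_of_nonneg_left (hN₁ N hN).le hD0.le
          _ = δ / 4 := by field_simp
      refine ⟨max N₁ N₂, fun N hN M hM => ?_⟩
      have a1 := hclose N ((le_max_left _ _).trans hN)
      have a2 := hclose M ((le_max_left _ _).trans hM)
      have a3 := hN₂ N ((le_max_right _ _).trans hN)
      have a4 := hN₂ M ((le_max_right _ _).trans hM)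
      rw [dist_eq_norm] at a3 a4
      have e1 : Av T G N x - Av T G M x = (Av T G N x - Av T (Function.update F j g) N x) +
          (Av T (Function.update F j g) N x - L) - (Av T (Function.update F j g) M x - L) -
          (Av T G M x - Av T (Function.update F j g) M x) := by ring
      rw [e1]
      have b1 := norm_sub_le ((Av T G N x - Av T (Function.update F j g) N x) +
          (Av T (Function.update F j g) N x - L) - (Av T (Function.update F j g) M x - L))
          (Av T G M x - Av T (Function.update F j g) M x)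
      have b2 := norm_sub_le ((Av T G N x - Av T (Function.update F j g) N x) +
          (Av T (Function.update F j g) N x - L)) (Av T (Function.update F j g) M x - L)
      have b3 := norm_add_le (Av T G N x - Av T (Function.update F j g) N x)
          (Av T (Function.update F j g) N x - L)
      linarith
    have h10 : μ {x | ¬ ∃ N₀, ∀ N, N₀ ≤ N → ∀ M, N₀ ≤ M →
        ‖Av T G N x - Av T G M x‖ ≤ δ} ≤ μ {x | δ / (4 * D) ≤ E x} := measure_mono_ae hsub
    refine h10.trans ?_
    have h9 : μ {x | δ / (4 * D) ≤ E x} = ENNReal.ofReal (μ.real {x | δ / (4 * D) ≤ E x}) := by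
      rw [measureReal_def, ENNReal.ofReal_toReal (measure_ne_top _ _)]
    rw [h9]
    calc ENNReal.ofReal (μ.real {x | δ / (4 * D) ≤ E x}) ≤ ENNReal.ofReal (ε : ℝ) :=
          ENNReal.ofReal_le_ofReal hmark'
      _ = ε := ENNReal.ofReal_coe_nnreal
  have hall := ae_all_iff.mpr fun i : ℕ => hbad (1 / ((i : ℝ) + 1)) (by positivity)
  filter_upwards [hall] with x hx
  apply cauchySeq_tendsto_of_complete
  rw [Metric.cauchySeq_iff']
  intro ε hε
  obtain ⟨i, hi⟩ := exists_nat_one_div_lt hε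
  obtain ⟨N₀, hN₀⟩ := hx i
  refine ⟨N₀, fun n hn => ?_⟩
  rw [dist_eq_norm]
  exact (hN₀ n hn N₀ le_rfl).trans_lt hi

end general

end Pool.Agent.H922R3.TA
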