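import Mathlib

/-!
# Multiple averages of toral endomorphisms: definitions
-/

set_option autoImplicit false

open Filter Topology MeasureTheory

noncomputable section

namespace Pool.Agent.H922R3.TA

/-- The endomorphism of the torus `𝕋^d = (ℝ/ℤ)^d` given by the integer matrix `A`. -/
def toralMap {d : ℕ} (A : Matrix (Fin d) (Fin d) ℤ) (x : UnitAddTorus (Fin d)) :
    UnitAddTorus (Fin d) := fun i => ∑ k, A i k • x k

/-- Haar probability measure (Lebesgue measure) of the torus. -/
def haarT (d : ℕ) : Measure (UnitAddTorus (Fin d)) :=
  Measure.pi fun _ => AddCircle.haarAddCircle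

end Pool.Agent.H922R3.TA
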