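import Pool.Agent.H922R3.TA.Defs

/-!
# Toral skew products: definitions
-/

set_option autoImplicit false

open Filter Topology MeasureTheory

noncomputable section

namespace Pool.Agent.H922R3.TA

/-- The skew product `(y, x) ↦ (S y, A x + φ y)` on `Y × 𝕋^d`. -/
def skewMap {d : ℕ} {Y : Type*} (A : Matrix (Fin d) (Fin d) ℤ) (S : Y → Y)
    (φ : Y → UnitAddTorus (Fin d)) (z : Y × UnitAddTorus (Fin d)) : Y × UnitAddTorus (Fin d) :=
  (S z.1, toralMap A z.2 + φ z.1)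

/-- Independence of the matrices `A j`: for every `q ≥ 1` the only integer vectors `v j` such that
`∑ j, (A jᵀ) ^ (q n) v j` does not depend on `n` are the zero vectors. -/
def Indep {d : ℕ} {J : Type*} [Fintype J] (A : J → Matrix (Fin d) (Fin d) ℤ) : Prop :=
  ∀ q : ℕ, 1 ≤ q → ∀ v : J → Fin d → ℤ,
    (∀ n : ℕ, ∑ j, ((A j).transpose ^ (q * n)).mulVec (v j) = ∑ j, v j) → ∀ j, v j = 0

/-- The averages `(1/N) ∑_{n < N} ∏_j h_j (S_j^n y)` converge almost everywhere for all bounded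
measurable functions `h_j`. -/
def Good {Y J : Type*} [MeasurableSpace Y] [Fintype J] (ν : Measure Y) (S : J → Y → Y) : Prop :=
  ∀ h : J → Y → ℂ, (∀ j, Measurable (h j)) → (∀ j, ∃ C : ℝ, ∀ y, ‖h j y‖ ≤ C) →
    ∀ᵐ y ∂ν, ∃ L : ℂ, Tendsto (fun N : ℕ => (N : ℂ)⁻¹ *
      ∑ n ∈ Finset.range N, ∏ j, h j ((S j)^[n] y)) atTop (𝓝 L)

end Pool.Agent.H922R3.TA
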