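import Pool.Agent.H922R3.TA.Main

set_option autoImplicit false
set_option linter.unusedSectionVars false

open Filter Topology MeasureTheory UnitAddTorus

noncomputable section

namespace Pool.Agent.H922R3.TA

variable {d : ℕ} {Y : Type*} [MeasurableSpace Y] {ν : Measure Y} [IsProbabilityMeasure ν]

theorem mFourier_le (m : Fin d → ℤ) (x : UnitAddTorus (Fin d)) : ‖mFourier m x‖ ≤ 1 := by
  calc ‖mFourier m x‖ ≤ ‖mFourier m‖ := ContinuousMap.norm_coe_le_norm _ x
    _ = 1 := mFourier_norm

theorem BM.add {X : Type*} [MeasurableSpace X] {f g : X → ℂ} (hf : BM f) (hg : BM g) :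
    BM (f + g) := by
  obtain ⟨h1, C, h2⟩ := hf
  obtain ⟨h3, C', h4⟩ := hg
  exact ⟨h1.add h3, C + C', fun x => (norm_add_le _ _).trans (add_le_add (h2 x) (h4 x))⟩

theorem BM.mul {X : Type*} [MeasurableSpace X] {f g : X → ℂ} (hf : BM f) (hg : BM g) :
    BM (fun x => f x * g x) := by
  obtain ⟨h1, C, h2⟩ := hf
  obtain ⟨h3, C', h4⟩ := hg
  refine ⟨h1.mul h3, |C| * |C'|, fun x => ?_⟩
  rw [norm_mul]
  exact mul_le_mul ((h2 x).trans (le_abs_self _)) ((h4 x).trans (le_abs_self _)) (norm_nonneg _)
    (abs_nonneg _)

theorem BM.comp {X X' : Type*} [MeasurableSpace X] [MeasurableSpace X'] {f : X → ℂ} (hf : BM f)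
    {g : X' → X} (hg : Measurable g) : BM (f ∘ g) := by
  obtain ⟨h1, C, h2⟩ := hf
  exact ⟨h1.comp hg, C, fun x => h2 _⟩

theorem BM.ind {X : Type*} [MeasurableSpace X] {A : Set X} (hA : MeasurableSet A) :
    BM (A.indicator fun _ => (1 : ℂ)) := by
  refine ⟨measurable_const.indicator hA, 1, fun x => ?_⟩
  by_cases hx : x ∈ A
  · rw [Set.indicator_of_mem hx, norm_one]
  · rw [Set.indicator_of_notMem hx, norm_zero]
    exact zero_le_one

theorem BM.cont (p : C(UnitAddTorus (Fin d), ℂ)) : BM p :=
  ⟨p.continuous.measurable, ‖p‖, fun x => ContinuousMap.norm_coe_le_norm p x⟩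

/-- The indicator function of `A` times the character `m`. -/
def base (A : Set Y) (m : Fin d → ℤ) (z : Y × UnitAddTorus (Fin d)) : ℂ :=
  A.indicator (fun _ => (1 : ℂ)) z.1 * mFourier m z.2

theorem all_of_closed (G : (Y × UnitAddTorus (Fin d) → ℂ) → Prop)
    (hadd : ∀ f g, G f → G g → G (f + g)) (hsmul : ∀ (c : ℂ) f, G f → G (c • f)) (hzero : G 0)
    (hcl : ∀ f, BM f → (∀ ε : ℝ, 0 < ε → ∃ g, BM g ∧
      ∫ z, ‖f z - g z‖ ∂(ν.prod (haarT d)) ≤ ε ∧ G g) → G f)
    (hbase : ∀ (A : Set Y), MeasurableSet A → ∀ m, G (base A m)) : ∀ f, BM f → G f := by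
  -- rectangles
  have hrect : ∀ (A : Set Y) (B : Set (UnitAddTorus (Fin d))), MeasurableSet A → MeasurableSet B →
      G ((A ×ˢ B).indicator fun _ => (1 : ℂ)) := by
    intro A B hA hB
    apply hcl _ (BM.ind (hA.prod hB))
    intro ε hε
    obtain ⟨p, hp, hpf⟩ := trig_dense (BM.ind hB) hε
    refine ⟨fun z => A.indicator (fun _ => (1 : ℂ)) z.1 * p z.2,
      ((BM.ind hA).comp measurable_fst).mul ((BM.cont p).comp measurable_snd), ?_, ?_⟩
    · have h1 : ∀ z : Y × UnitAddTorus (Fin d), ‖(A ×ˢ B).indicator (fun _ => (1 : ℂ)) z -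
          A.indicator (fun _ => (1 : ℂ)) z.1 * p z.2‖ ≤
          ‖B.indicator (fun _ => (1 : ℂ)) z.2 - p z.2‖ := by
        rintro ⟨y, x⟩
        by_cases hy : y ∈ A
        · have e1 : (A ×ˢ B).indicator (fun _ => (1 : ℂ)) (y, x) =
              B.indicator (fun _ => (1 : ℂ)) x := by
            by_cases hx : x ∈ B
            · rw [Set.indicator_of_mem (show (y, x) ∈ A ×ˢ B from ⟨hy, hx⟩),
                Set.indicator_of_mem hx]
            · rw [Set.indicator_of_notMem (fun h => hx h.2), Set.indicator_of_notMem hx]
          rw [e1]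
          show ‖_ - A.indicator (fun _ => (1 : ℂ)) y * p x‖ ≤ _
          rw [Set.indicator_of_mem hy, one_mul]
        · rw [Set.indicator_of_notMem (fun h => hy h.1)]
          show ‖0 - A.indicator (fun _ => (1 : ℂ)) y * p x‖ ≤ _
          rw [Set.indicator_of_notMem hy, zero_mul, sub_zero, norm_zero]
          exact norm_nonneg _
      have hk : BM (fun x => B.indicator (fun _ => (1 : ℂ)) x - p x) := by
        have := (BM.ind hB).add (BM.cont (-p))
        refine ⟨(measurable_const.indicator hB).sub p.continuous.measurable, ?_⟩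
        obtain ⟨_, C, hC⟩ := this
        refine ⟨C, fun x => ?_⟩
        show ‖B.indicator (fun _ => (1 : ℂ)) x - p x‖ ≤ C
        rw [sub_eq_add_neg]
        exact hC x
      have hki : Integrable (fun x => ‖B.indicator (fun _ => (1 : ℂ)) x - p x‖) (haarT d) := by
        obtain ⟨h2, C, hC⟩ := hk
        exact (Integrable.mono' (integrable_const C) h2.aestronglyMeasurable
          (Eventually.of_forall hC)).norm
      have hmp : MeasurePreserving (Prod.snd : Y × UnitAddTorus (Fin d) → _)
          (ν.prod (haarT d)) (haarT d) := measurePreserving_snd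
      have h3 : ∫ z : Y × UnitAddTorus (Fin d), ‖B.indicator (fun _ => (1 : ℂ)) z.2 - p z.2‖
          ∂(ν.prod (haarT d)) = ∫ x, ‖B.indicator (fun _ => (1 : ℂ)) x - p x‖ ∂(haarT d) := by
        conv_rhs => rw [← hmp.map_eq]
        rw [integral_map hmp.measurable.aemeasurable]
        exact hk.1.norm.aestronglyMeasurable
      have h4 : Integrable (fun z : Y × UnitAddTorus (Fin d) =>
          ‖B.indicator (fun _ => (1 : ℂ)) z.2 - p z.2‖) (ν.prod (haarT d)) :=
        hmp.integrable_comp_of_integrable hki
      refine le_trans (integral_mono_of_nonneg (Eventually.of_forall fun z => norm_nonneg _) h4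
        (Eventually.of_forall h1)) ?_
      rw [h3]
      exact hpf
    · refine Submodule.span_induction (p := fun (p : C(UnitAddTorus (Fin d), ℂ)) _ =>
        G (fun z => A.indicator (fun _ => (1 : ℂ)) z.1 * p z.2)) ?_ ?_ ?_ ?_ hp
      · rintro _ ⟨m, rfl⟩
        exact hbase A hA m
      · have e1 : (fun z : Y × UnitAddTorus (Fin d) => A.indicator (fun _ => (1 : ℂ)) z.1 *
            (0 : C(UnitAddTorus (Fin d), ℂ)) z.2) = 0 := by
          funext z
          simp
        rw [e1]
        exact hzero
      · intro p q _ _ h1 h2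
        have e1 : (fun z : Y × UnitAddTorus (Fin d) => A.indicator (fun _ => (1 : ℂ)) z.1 *
            (p + q) z.2) = (fun z => A.indicator (fun _ => (1 : ℂ)) z.1 * p z.2) +
            fun z => A.indicator (fun _ => (1 : ℂ)) z.1 * q z.2 := by
          funext z
          simp [mul_add]
        rw [e1]
        exact hadd _ _ h1 h2
      · intro c p _ h1
        have e1 : (fun z : Y × UnitAddTorus (Fin d) => A.indicator (fun _ => (1 : ℂ)) z.1 *
            (c • p) z.2) = c • (fun z => A.indicator (fun _ => (1 : ℂ)) z.1 * p z.2) := by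
          funext z
          simp [mul_left_comm]
        rw [e1]
        exact hsmul c _ h1
  have hone : G fun _ => (1 : ℂ) := by
    have := hrect Set.univ Set.univ MeasurableSet.univ MeasurableSet.univ
    rw [Set.univ_prod_univ] at this
    simpa using this
  -- measurable sets
  have hset : ∀ E : Set (Y × UnitAddTorus (Fin d)), MeasurableSet E →
      G (E.indicator fun _ => (1 : ℂ)) := by
    intro E hE
    refine MeasurableSpace.induction_on_inter
      (C := fun (E : Set (Y × UnitAddTorus (Fin d))) _ => G (E.indicator fun _ => (1 : ℂ)))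
      generateFrom_prod.symm isPiSystem_prod ?_ ?_ ?_ ?_ E hE
    · have e1 : (∅ : Set (Y × UnitAddTorus (Fin d))).indicator (fun _ => (1 : ℂ)) = 0 :=
        Set.indicator_empty _
      rw [e1]
      exact hzero
    · rintro _ ⟨A, hA, B, hB, rfl⟩
      exact hrect A B hA hB
    · intro t _ h
      have e1 : (tᶜ).indicator (fun _ => (1 : ℂ)) =
          (fun _ : Y × UnitAddTorus (Fin d) => (1 : ℂ)) +
            (-1 : ℂ) • t.indicator (fun _ => (1 : ℂ)) := by
        funext z
        by_cases hz : z ∈ t
        · simp [hz]
        · simp [hz]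
      rw [e1]
      exact hadd _ _ hone (hsmul _ _ h)
    · intro D hD hDm hDG
      let s : ℕ → Set (Y × UnitAddTorus (Fin d)) := fun n => ⋃ i ∈ Finset.range n, D i
      have hsm : ∀ n, MeasurableSet (s n) := fun n =>
        Finset.measurableSet_biUnion _ fun i _ => hDm i
      have hsG : ∀ n, G ((s n).indicator fun _ => (1 : ℂ)) := by
        intro n
        induction n with
        | zero =>
          have e0 : s 0 = ∅ := by simp [s]
          have e1 : (s 0).indicator (fun _ => (1 : ℂ)) = 0 := by
            rw [e0]
            exact Set.indicator_empty _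
          rw [e1]
          exact hzero
        | succ n ih =>
          have e1 : s (n + 1) = s n ∪ D n := by
            ext z
            simp only [s, Set.mem_iUnion, Finset.mem_range, Set.mem_union, exists_prop]
            constructor
            · rintro ⟨i, hi, hz⟩
              rcases Nat.lt_succ_iff_lt_or_eq.mp hi with h | h
              · exact Or.inl ⟨i, h, hz⟩
              · subst h
                exact Or.inr hz
            · rintro (⟨i, hi, hz⟩ | hz)
              · exact ⟨i, by omega, hz⟩
              · exact ⟨n, by omega, hz⟩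
          have hdis : Disjoint (s n) (D n) := by
            rw [Set.disjoint_left]
            intro z hz hz'
            simp only [s, Set.mem_iUnion, Finset.mem_range, exists_prop] at hz
            obtain ⟨i, hi, hzi⟩ := hz
            exact Set.disjoint_left.mp (hD (by omega : i ≠ n)) hzi hz'
          rw [e1, Set.indicator_union_of_disjoint hdis]
          exact hadd _ _ ih (hDG n)
      have hmono : Monotone s := by
        intro a b hab
        apply Set.biUnion_subset_biUnion_left
        intro i hi
        simp only [Finset.mem_coe, Finset.mem_range] at hi ⊢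
        exact lt_of_lt_of_le hi hab
      have hU : ⋃ n, s n = ⋃ i, D i := by
        ext z
        simp only [s, Set.mem_iUnion, Finset.mem_range, exists_prop]
        constructor
        · rintro ⟨n, i, _, hz⟩
          exact ⟨i, hz⟩
        · rintro ⟨i, hz⟩
          exact ⟨i + 1, i, Nat.lt_succ_self i, hz⟩
      apply hcl _ (BM.ind (MeasurableSet.iUnion hDm))
      intro ε hε
      have hlim : Tendsto (fun n => ∫ z, ‖(⋃ i, D i).indicator (fun _ => (1 : ℂ)) z -
          (s n).indicator (fun _ => (1 : ℂ)) z‖ ∂(ν.prod (haarT d))) atTop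
          (𝓝 (∫ z, (0 : ℝ) ∂(ν.prod (haarT d)))) := by
        apply tendsto_integral_of_dominated_convergence (fun _ => (2 : ℝ))
        · intro n
          exact ((BM.ind (MeasurableSet.iUnion hDm)).1.sub
            (BM.ind (hsm n)).1).norm.aestronglyMeasurable
        · exact integrable_const _
        · intro n
          refine Eventually.of_forall fun z => ?_
          rw [norm_norm]
          refine (norm_sub_le _ _).trans ?_
          have b1 : ∀ E : Set (Y × UnitAddTorus (Fin d)),
              ‖E.indicator (fun _ => (1 : ℂ)) z‖ ≤ 1 := by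
            intro E
            by_cases hz : z ∈ E
            · rw [Set.indicator_of_mem hz, norm_one]
            · rw [Set.indicator_of_notMem hz, norm_zero]
              exact zero_le_one
          have := b1 (⋃ i, D i)
          have := b1 (s n)
          linarith
        · refine Eventually.of_forall fun z => ?_
          have h1 := Monotone.tendsto_indicator s hmono (fun _ => (1 : ℂ)) z
          rw [hU] at h1
          have h2 := h1.mono_right (pure_le_nhds _)
          have h3 := (tendsto_const_nhds (x := (⋃ i, D i).indicator (fun _ => (1 : ℂ)) z)).sub h2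
          rw [sub_self] at h3
          have h4 := h3.norm
          rwa [norm_zero] at h4
      rw [integral_zero] at hlim
      obtain ⟨n, hn⟩ := ((tendsto_order.mp hlim).2 ε hε).exists
      exact ⟨_, BM.ind (hsm n), hn.le, hsG n⟩
  -- simple functions
  have hsimple : ∀ g : SimpleFunc (Y × UnitAddTorus (Fin d)) ℂ, G g := by
    intro g
    refine SimpleFunc.induction (motive := fun g => G g) ?_ ?_ g
    · intro c E hE
      have e1 : (⇑(SimpleFunc.piecewise E hE (SimpleFunc.const _ c) (SimpleFunc.const _ 0)) :
          Y × UnitAddTorus (Fin d) → ℂ) = c • E.indicator fun _ => (1 : ℂ) := by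
        classical
        funext z
        by_cases hz : z ∈ E
        · simp [hz]
        · simp [hz]
      rw [e1]
      exact hsmul c _ (hset E hE)
    · intro f g _ hf hg
      exact hadd _ _ hf hg
  intro f hf
  apply hcl f hf
  intro ε hε
  obtain ⟨hfm, C, hC⟩ := hf
  have hfL : MemLp f 1 (ν.prod (haarT d)) := by
    rw [memLp_one_iff_integrable]
    exact Integrable.mono' (integrable_const C) hfm.aestronglyMeasurable (Eventually.of_forall hC)
  obtain ⟨g, hg, _⟩ := hfL.exists_simpleFunc_eLpNorm_sub_lt ENNReal.one_ne_top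
    (ε := ENNReal.ofReal ε) (by simpa using hε)
  refine ⟨g, ⟨g.measurable, ?_⟩, ?_, hsimple g⟩
  · obtain ⟨C', hC'⟩ := g.exists_forall_norm_le
    exact ⟨C', hC'⟩
  · have hm : AEStronglyMeasurable (fun z => f z - g z) (ν.prod (haarT d)) :=
      (hfm.sub g.measurable).aestronglyMeasurable
    rw [integral_norm_eq_lintegral_enorm hm]
    rw [eLpNorm_one_eq_lintegral_enorm] at hg
    exact ENNReal.toReal_le_of_le_ofReal hε.le hg.le

end Pool.Agent.H922R3.TA
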