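import Pool.Agent.H922R3.TA.Defs

set_option autoImplicit false

open Filter Topology MeasureTheory UnitAddTorus

noncomputable section

namespace Pool.Agent.H922R3.TA

instance (d : ℕ) : IsProbabilityMeasure (haarT d) := by
  unfold haarT
  infer_instance

section orth

local instance : MeasureSpace UnitAddCircle := ⟨AddCircle.haarAddCircle⟩

local instance : Measure.IsAddHaarMeasure (volume : Measure UnitAddCircle) :=
  inferInstanceAs (Measure.IsAddHaarMeasure AddCircle.haarAddCircle)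

local instance : IsProbabilityMeasure (volume : Measure UnitAddCircle) :=
  inferInstanceAs (IsProbabilityMeasure AddCircle.haarAddCircle)

theorem orth {d : ℕ} (a b : Fin d → ℤ) :
    ∫ x, mFourier a x * (starRingEnd ℂ) (mFourier b x) ∂(haarT d) = if b = a then 1 else 0 := by
  have h := (orthonormal_iff_ite.mp (orthonormal_mFourier (d := Fin d))) b a
  rw [← h]
  exact (ContinuousMap.inner_toLp (𝕜 := ℂ) (haarT d) (mFourier b) (mFourier a)).symm

end orth

variable {d : ℕ}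

theorem cont_int {f : UnitAddTorus (Fin d) → ℂ} (hf : Continuous f) : Integrable f (haarT d) := by
  obtain ⟨C, hC⟩ := isCompact_univ.exists_bound_of_continuousOn hf.continuousOn
  exact Integrable.mono' (integrable_const C) hf.aestronglyMeasurable
    (Eventually.of_forall fun x => hC x (Set.mem_univ x))

theorem l2_count (φ : ℕ → Fin d → ℤ) {K : ℕ}
    (hK : ∀ (w : Fin d → ℤ) (s : Finset ℕ), (∀ n ∈ s, φ n = w) → s.card ≤ K) (N : ℕ) :
    ∫ x, ‖∑ n ∈ Finset.range N, mFourier (φ n) x‖ ^ 2 ∂(haarT d) ≤ K * N := by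
  classical
  have h1 : ∀ x, ((‖∑ n ∈ Finset.range N, mFourier (φ n) x‖ ^ 2 : ℝ) : ℂ) =
      ∑ n ∈ Finset.range N, ∑ k ∈ Finset.range N,
        mFourier (φ n) x * (starRingEnd ℂ) (mFourier (φ k) x) := by
    intro x
    rw [← Complex.normSq_eq_norm_sq, ← Complex.mul_conj, map_sum, Finset.sum_mul_sum]
  have h2 : ((∫ x, ‖∑ n ∈ Finset.range N, mFourier (φ n) x‖ ^ 2 ∂(haarT d) : ℝ) : ℂ) =
      ∑ n ∈ Finset.range N, ∑ k ∈ Finset.range N, if φ k = φ n then (1 : ℂ) else 0 := by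
    rw [← integral_complex_ofReal]
    simp only [h1]
    rw [integral_finsetSum]
    · apply Finset.sum_congr rfl
      intro n _
      rw [integral_finsetSum]
      · apply Finset.sum_congr rfl
        intro k _
        exact orth _ _
      · intro k _
        exact cont_int ((mFourier (φ n)).continuous.mul
          (Complex.continuous_conj.comp (mFourier (φ k)).continuous))
    · intro n _
      apply cont_int
      exact continuous_finsetSum _ fun k _ => (mFourier (φ n)).continuous.mul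
          (Complex.continuous_conj.comp (mFourier (φ k)).continuous)
  have h3 : (∫ x, ‖∑ n ∈ Finset.range N, mFourier (φ n) x‖ ^ 2 ∂(haarT d) : ℝ) =
      ∑ n ∈ Finset.range N, (((Finset.range N).filter fun k => φ k = φ n).card : ℝ) := by
    have h4 : ((∫ x, ‖∑ n ∈ Finset.range N, mFourier (φ n) x‖ ^ 2 ∂(haarT d) : ℝ) : ℂ) =
      ((∑ n ∈ Finset.range N, (((Finset.range N).filter fun k => φ k = φ n).card : ℝ) : ℝ) : ℂ) := by
      rw [h2]
      push_cast
      apply Finset.sum_congr rfl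
      intro n _
      rw [Finset.sum_ite, Finset.sum_const_zero, add_zero, Finset.sum_const, nsmul_eq_mul, mul_one]
    exact_mod_cast h4
  rw [h3]
  calc ∑ n ∈ Finset.range N, (((Finset.range N).filter fun k => φ k = φ n).card : ℝ) ≤
      ∑ n ∈ Finset.range N, (K : ℝ) := by
        apply Finset.sum_le_sum
        intro n _
        exact_mod_cast hK (φ n) _ fun k hk => (Finset.mem_filter.mp hk).2
    _ = K * N := by
      rw [Finset.sum_const, Finset.card_range, nsmul_eq_mul, mul_comm]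

theorem ae_zero (φ : ℕ → Fin d → ℤ) {K : ℕ}
    (hK : ∀ (w : Fin d → ℤ) (s : Finset ℕ), (∀ n ∈ s, φ n = w) → s.card ≤ K) :
    ∀ᵐ x ∂(haarT d), Tendsto (fun N : ℕ => (N : ℂ)⁻¹ *
      ∑ n ∈ Finset.range N, mFourier (φ n) x) atTop (𝓝 0) := by
  set S : ℕ → UnitAddTorus (Fin d) → ℂ := fun N x => ∑ n ∈ Finset.range N, mFourier (φ n) x
    with hS
  have hSc : ∀ N, Continuous (S N) := fun N =>
    continuous_finsetSum _ fun n _ => (mFourier (φ n)).continuous
  -- the squares
  let g : ℕ → UnitAddTorus (Fin d) → ENNReal := fun M x =>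
    ENNReal.ofReal (‖S ((M + 1) ^ 2) x‖ ^ 2 / ((M + 1 : ℝ) ^ 2) ^ 2)
  have hgm : ∀ M, Measurable (g M) := fun M => by
    apply ENNReal.measurable_ofReal.comp
    exact (((hSc _).norm.pow 2).div_const _).measurable
  have hg : ∀ M, ∫⁻ x, g M x ∂(haarT d) ≤ ENNReal.ofReal (K / (M + 1 : ℝ) ^ 2) := by
    intro M
    have hint : Integrable (fun x => ‖S ((M + 1) ^ 2) x‖ ^ 2 / ((M + 1 : ℝ) ^ 2) ^ 2)
        (haarT d) := by
      have hc : Continuous fun x => ‖S ((M + 1) ^ 2) x‖ ^ 2 / ((M + 1 : ℝ) ^ 2) ^ 2 :=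
        ((hSc _).norm.pow 2).div_const _
      obtain ⟨C, hC⟩ := isCompact_univ.exists_bound_of_continuousOn hc.continuousOn
      exact Integrable.mono' (integrable_const C) hc.aestronglyMeasurable
        (Eventually.of_forall fun x => hC x (Set.mem_univ x))
    rw [← ofReal_integral_eq_lintegral_ofReal hint (Eventually.of_forall fun x => by positivity)]
    apply ENNReal.ofReal_le_ofReal
    rw [integral_div, div_le_div_iff₀ (by positivity) (by positivity)]
    have h1 := l2_count φ hK ((M + 1) ^ 2)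
    push_cast at h1
    nlinarith [sq_nonneg ((M : ℝ) + 1)]
  have hsum : ∑' M, ∫⁻ x, g M x ∂(haarT d) ≠ ⊤ := by
    have h1 : Summable fun M : ℕ => (K : ℝ) / (M + 1 : ℝ) ^ 2 := by
      have h2 : Summable fun n : ℕ => (1 : ℝ) / (n : ℝ) ^ 2 :=
        Real.summable_one_div_nat_pow.mpr (by norm_num)
      have h3 := ((summable_nat_add_iff 1).mpr h2).mul_left (K : ℝ)
      refine h3.congr fun M => ?_
      push_cast
      ring
    have h4 : ∑' M : ℕ, ENNReal.ofReal ((K : ℝ) / (M + 1 : ℝ) ^ 2) ≠ ⊤ := by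
      rw [← ENNReal.ofReal_tsum_of_nonneg (fun M => by positivity) h1]
      exact ENNReal.ofReal_ne_top
    exact ne_top_of_le_ne_top h4 (ENNReal.tsum_le_tsum hg)
  rw [← lintegral_tsum fun M => (hgm M).aemeasurable] at hsum
  have hae := ae_lt_top' (AEMeasurable.ennreal_tsum fun M => (hgm M).aemeasurable) hsum
  filter_upwards [hae] with x hx
  have h5 : Tendsto (fun M => g M x) atTop (𝓝 0) :=
    ENNReal.tendsto_atTop_zero_of_tsum_ne_top hx.ne
  have h6 : Tendsto (fun M : ℕ => ‖S ((M + 1) ^ 2) x‖ / (M + 1 : ℝ) ^ 2) atTop (𝓝 0) := by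
    have h7 : Tendsto (fun M : ℕ => ‖S ((M + 1) ^ 2) x‖ ^ 2 / ((M + 1 : ℝ) ^ 2) ^ 2) atTop
        (𝓝 0) := by
      have h8 := (ENNReal.tendsto_toReal ENNReal.zero_ne_top).comp h5
      refine Tendsto.congr (fun M => ?_) h8
      show (ENNReal.ofReal _).toReal = _
      rw [ENNReal.toReal_ofReal (by positivity)]
    have h9 := (Real.continuous_sqrt.tendsto 0).comp h7
    rw [Real.sqrt_zero] at h9
    refine Tendsto.congr (fun M => ?_) h9
    show Real.sqrt (‖S ((M + 1) ^ 2) x‖ ^ 2 / ((M + 1 : ℝ) ^ 2) ^ 2) = _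
    rw [← div_pow, Real.sqrt_sq (by positivity)]
  -- fill in
  rw [Metric.tendsto_atTop]
  intro ε hε
  obtain ⟨M₀, hM₀⟩ := Metric.tendsto_atTop.mp h6 (ε / 2) (by positivity)
  obtain ⟨M₁, hM₁⟩ := exists_nat_gt (8 / ε)
  refine ⟨(M₀ + M₁ + 2) ^ 2, fun N hN => ?_⟩
  rw [dist_zero_right]
  show ‖(N : ℂ)⁻¹ * S N x‖ < ε
  obtain ⟨M, hM1, hM2⟩ : ∃ M, (M + 1) ^ 2 ≤ N ∧ N < (M + 2) ^ 2 := by
    refine ⟨Nat.sqrt N - 1, ?_, ?_⟩
    · have h10 : M₀ + M₁ + 2 ≤ Nat.sqrt N := Nat.le_sqrt'.mpr hN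
      have h11 : Nat.sqrt N - 1 + 1 = Nat.sqrt N := by omega
      rw [h11]
      exact Nat.sqrt_le' N
    · have h10 : M₀ + M₁ + 2 ≤ Nat.sqrt N := Nat.le_sqrt'.mpr hN
      have h11 : Nat.sqrt N - 1 + 2 = Nat.sqrt N + 1 := by omega
      rw [h11]
      exact Nat.lt_succ_sqrt' N
  have hMbig : M₀ + M₁ + 2 < M + 2 := by
    by_contra hcon
    rw [not_lt] at hcon
    have := Nat.pow_le_pow_left hcon 2
    omega
  have hN0 : (0 : ℝ) < N := by
    have : 0 < N := lt_of_lt_of_le (by positivity) hM1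
    exact_mod_cast this
  have hNM : ((M : ℝ) + 1) ^ 2 ≤ N := by exact_mod_cast hM1
  have hdiff : ‖S N x‖ ≤ ‖S ((M + 1) ^ 2) x‖ + (2 * M + 3) := by
    have h12 : S N x = S ((M + 1) ^ 2) x +
        ∑ n ∈ Finset.Ico ((M + 1) ^ 2) N, mFourier (φ n) x := by
      show ∑ n ∈ Finset.range N, _ = ∑ n ∈ Finset.range _, _ + _
      rw [Finset.sum_range_add_sum_Ico _ hM1]
    rw [h12]
    refine (norm_add_le _ _).trans (add_le_add le_rfl ?_)
    refine (norm_sum_le _ _).trans ?_
    calc ∑ n ∈ Finset.Ico ((M + 1) ^ 2) N, ‖mFourier (φ n) x‖ ≤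
          ∑ n ∈ Finset.Ico ((M + 1) ^ 2) N, (1 : ℝ) := by
          apply Finset.sum_le_sum
          intro n _
          calc ‖mFourier (φ n) x‖ ≤ ‖mFourier (φ n)‖ := ContinuousMap.norm_coe_le_norm _ x
            _ = 1 := mFourier_norm
      _ = ((N - (M + 1) ^ 2 : ℕ) : ℝ) := by
          rw [Finset.sum_const, Nat.card_Ico, nsmul_eq_mul, mul_one]
      _ ≤ 2 * M + 3 := by
          have h13 : N - (M + 1) ^ 2 ≤ 2 * M + 3 := by
            have : (M + 2) ^ 2 = (M + 1) ^ 2 + (2 * M + 3) := by ring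
            omega
          exact_mod_cast h13
  rw [norm_mul, norm_inv, Complex.norm_natCast, inv_mul_eq_div]
  have h14 := hM₀ M (by omega)
  rw [dist_zero_right, norm_div, norm_norm, norm_pow] at h14
  have h15 : ‖(M : ℝ) + 1‖ = (M : ℝ) + 1 := by
    rw [Real.norm_eq_abs, abs_of_pos (by positivity)]
  rw [h15] at h14
  have h16 : (8 : ℝ) / ε < M + 1 := by
    have : (M₁ : ℝ) ≤ M := by
      have : M₁ ≤ M := by omega
      exact_mod_cast this
    linarith
  rw [div_lt_iff₀ hε] at h16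
  rw [div_lt_iff₀ (by positivity)] at h14
  rw [div_lt_iff₀ hN0]
  have hM0 : (0 : ℝ) < (M : ℝ) + 1 := by positivity
  have h18 : 4 * ((M : ℝ) + 1) < ε / 2 * ((M : ℝ) + 1) ^ 2 := by
    have := mul_lt_mul_of_pos_right h16 hM0
    nlinarith
  have h19 : ε / 2 * ((M : ℝ) + 1) ^ 2 ≤ ε / 2 * N :=
    mul_le_mul_of_nonneg_left hNM (by positivity)
  have h20 : (2 * (M : ℝ) + 3) ≤ 4 * ((M : ℝ) + 1) := by linarith [hM0, Nat.cast_nonneg (α := ℝ) M]
  linarith

end Pool.Agent.H922R3.TA
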