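import Pool.Agent.H922R3.TA.Str

set_option autoImplicit false

open Filter Topology

namespace Pool.Agent.H922R3.TA

variable {d : ℕ} {J : Type*} [Fintype J]

theorem exists_period (B : J → Matrix (Fin d) (Fin d) ℤ) (hB : ∀ j, (B j).det ≠ 0) :
    ∃ (p : ℕ) (_ : p.Prime) (q : ℕ) (C : J → Matrix (Fin d) (Fin d) ℤ), 3 ≤ p ∧ 1 ≤ q ∧
      ∀ j, (B j) ^ q = (p : ℤ) • C j + 1 := by
  classical
  obtain ⟨p, hp, hpp⟩ := Nat.exists_infinite_primes (3 + ∑ j, ((B j).det).natAbs)
  have : Fact p.Prime := ⟨hpp⟩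
  have : NeZero p := ⟨hpp.ne_zero⟩
  let f : ℤ →+* ZMod p := Int.castRingHom (ZMod p)
  have hdet : ∀ j, ((B j).map f).det ≠ 0 := by
    intro j h0
    have h1 : f (B j).det = 0 := by
      rw [RingHom.map_det]
      exact h0
    have h2 : (p : ℤ) ∣ (B j).det := by
      rw [← ZMod.intCast_zmod_eq_zero_iff_dvd]
      simpa [f] using h1
    have h3 : p ∣ ((B j).det).natAbs := by
      have := Int.natAbs_dvd_natAbs.mpr h2
      simpa using this
    have h4 : p ≤ ((B j).det).natAbs := Nat.le_of_dvd (Int.natAbs_pos.mpr (hB j)) h3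
    have h5 : ((B j).det).natAbs ≤ ∑ j, ((B j).det).natAbs :=
      Finset.single_le_sum (f := fun j => ((B j).det).natAbs) (fun _ _ => Nat.zero_le _)
        (Finset.mem_univ j)
    omega
  let G := (Matrix (Fin d) (Fin d) (ZMod p))ˣ
  have hq : ∀ j, ((B j).map f) ^ (Fintype.card G) = 1 := by
    intro j
    have h1 : IsUnit ((B j).map f) := by
      rw [Matrix.isUnit_iff_isUnit_det]
      exact isUnit_iff_ne_zero.mpr (hdet j)
    obtain ⟨u, hu⟩ := h1
    rw [← hu, ← Units.val_pow_eq_pow_val, pow_card_eq_one, Units.val_one]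
  have hC : ∀ j, ∃ C : Matrix (Fin d) (Fin d) ℤ, (B j) ^ (Fintype.card G) = (p : ℤ) • C + 1 := by
    intro j
    have h1 : ((B j) ^ (Fintype.card G) - 1).map f = 0 := by
      have h2 : ((B j) ^ (Fintype.card G) - 1).map f =
          f.mapMatrix ((B j) ^ (Fintype.card G) - 1) := rfl
      rw [h2, map_sub, map_pow, map_one]
      show ((B j).map f) ^ _ - 1 = 0
      rw [hq j, sub_self]
    have h3 : ∀ a b, ∃ c : ℤ, ((B j) ^ (Fintype.card G) - 1) a b = p * c := by
      intro a b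
      have h4 := congrFun (congrFun h1 a) b
      have h5 : f (((B j) ^ (Fintype.card G) - 1) a b) = 0 := h4
      have h6 : (p : ℤ) ∣ (((B j) ^ (Fintype.card G) - 1) a b) := by
        rw [← ZMod.intCast_zmod_eq_zero_iff_dvd]
        simpa [f] using h5
      exact h6
    choose c hc using h3
    refine ⟨Matrix.of c, ?_⟩
    have h7 : (B j) ^ (Fintype.card G) - 1 = (p : ℤ) • Matrix.of c := by
      ext a b
      rw [hc a b]
      simp
    rw [← h7]
    abel
  choose C hC using hC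
  exact ⟨p, hpp, Fintype.card G, C, by omega, Fintype.card_pos, hC⟩

/-- The frequencies. -/
def psi (B : J → Matrix (Fin d) (Fin d) ℤ) (v : J → Fin d → ℤ) (n : ℕ) : Fin d → ℤ :=
  ∑ j, ((B j) ^ n).mulVec (v j)

theorem psi_expand {p : ℕ} {q : ℕ} {B C : J → Matrix (Fin d) (Fin d) ℤ}
    (hC : ∀ j, (B j) ^ q = (p : ℤ) • C j + 1) (v : J → Fin d → ℤ) (r n : ℕ) (i : Fin d) :
    psi B v (r + q * n) i = ∑ k ∈ Finset.range (n + 1), (n.choose k : ℤ) * (p : ℤ) ^ k *
      (∑ j, ((B j) ^ r * (C j) ^ k).mulVec (v j)) i := by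
  have h1 : ∀ j, ((B j) ^ (r + q * n)).mulVec (v j) = ∑ k ∈ Finset.range (n + 1),
      ((n.choose k : ℤ) * (p : ℤ) ^ k) • ((B j) ^ r * (C j) ^ k).mulVec (v j) := by
    intro j
    rw [pow_add, pow_mul, hC j, (Commute.one_right _).add_pow, Finset.mul_sum, Matrix.sum_mulVec]
    apply Finset.sum_congr rfl
    intro k _
    rw [one_pow, mul_one, smul_pow, ← Matrix.smul_mulVec]
    congr 1
    have e1 : ((n.choose k : ℕ) : Matrix (Fin d) (Fin d) ℤ) = (n.choose k : ℤ) • 1 := by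
      rw [← Int.cast_natCast (R := Matrix (Fin d) (Fin d) ℤ), ← zsmul_one]
    rw [e1, mul_smul_comm, mul_one, smul_smul, mul_smul_comm]
  rw [psi, Finset.sum_congr rfl fun j _ => h1 j, Finset.sum_comm, Finset.sum_apply]
  apply Finset.sum_congr rfl
  intro k _
  rw [← Finset.smul_sum, Pi.smul_apply, smul_eq_mul]

/-- On suitable residue classes the frequencies are constant or take each value boundedly often. -/
theorem classes (B : J → Matrix (Fin d) (Fin d) ℤ) (hB : ∀ j, (B j).det ≠ 0)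
    (v : J → Fin d → ℤ) : ∃ q : ℕ, 1 ≤ q ∧ ∀ r, (∀ n, psi B v (r + q * n) = psi B v r) ∨
      ∃ K : ℕ, ∀ (w : Fin d → ℤ) (s : Finset ℕ), (∀ n ∈ s, psi B v (r + q * n) = w) →
        s.card ≤ K := by
  obtain ⟨p, hpp, q, C, hp3, hq, hC⟩ := exists_period B hB
  have : Fact p.Prime := ⟨hpp⟩
  refine ⟨q, hq, fun r => ?_⟩
  by_cases h : ∃ i, ∃ k, 1 ≤ k ∧ (∑ j, ((B j) ^ r * (C j) ^ k).mulVec (v j)) i ≠ 0
  · right
    obtain ⟨i, hi⟩ := h
    obtain ⟨K, hK⟩ := strass hp3 (fun k => (∑ j, ((B j) ^ r * (C j) ^ k).mulVec (v j)) i) hi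
    refine ⟨K, fun w s hs => hK (w i) s fun n hn => ?_⟩
    rw [← hs n hn, psi_expand hC]
  · left
    push Not at h
    intro n
    have h1 : ∀ n, psi B v (r + q * n) = ∑ j, ((B j) ^ r * (C j) ^ 0).mulVec (v j) := by
      intro n
      funext i
      rw [psi_expand hC, Finset.sum_eq_single 0]
      · simp
      · intro k _ hk
        rw [h i k (by omega), mul_zero]
      · intro h0
        exact absurd (Finset.mem_range.mpr (Nat.succ_pos n)) h0
    have h2 := h1 0
    rw [mul_zero, add_zero] at h2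
    rw [h1 n, h2]

end Pool.Agent.H922R3.TA
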