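import Pool.Agent.H922R3.TA.App
import Pool.Agent.H922R3.TA.Erg
import Pool.Agent.H922R3.TA.Mat

set_option autoImplicit false
set_option linter.unusedSectionVars false

open Filter Topology MeasureTheory UnitAddTorus

noncomputable section

namespace Pool.Agent.H922R3.TA

variable {d : ℕ}

theorem toCircle_sum {ι : Type*} (s : Finset ι) (y : ι → UnitAddCircle) :
    AddCircle.toCircle (∑ i ∈ s, y i) = ∏ i ∈ s, AddCircle.toCircle (y i) := by
  classical
  induction s using Finset.induction_on with
  | empty => simp
  | insert a s ha ih => rw [Finset.sum_insert ha, Finset.prod_insert ha, AddCircle.toCircle_add, ih]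

theorem mFourier_eq (m : Fin d → ℤ) (x : UnitAddTorus (Fin d)) :
    mFourier m x = (AddCircle.toCircle (∑ i, m i • x i) : ℂ) := by
  rw [toCircle_sum]
  have h := map_prod Circle.coeHom (fun i => AddCircle.toCircle (m i • x i)) Finset.univ
  refine Eq.trans ?_ h.symm
  show ∏ i, fourier (m i) (x i) = _
  apply Finset.prod_congr rfl
  intro i _
  rw [fourier_apply]
  rfl

theorem mFourier_toral (A : Matrix (Fin d) (Fin d) ℤ) (m : Fin d → ℤ) (x : UnitAddTorus (Fin d)) :
    mFourier m (toralMap A x) = mFourier (A.transpose.mulVec m) x := by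
  rw [mFourier_eq, mFourier_eq]
  congr 2
  have h1 : ∀ i, m i • toralMap A x i = ∑ k, (m i * A i k) • x k := by
    intro i
    rw [toralMap, Finset.smul_sum]
    exact Finset.sum_congr rfl fun k _ => by rw [mul_smul]
  rw [Finset.sum_congr rfl fun i _ => h1 i, Finset.sum_comm]
  apply Finset.sum_congr rfl
  intro k _
  rw [Matrix.mulVec, dotProduct, Finset.sum_smul]
  apply Finset.sum_congr rfl
  intro i _
  rw [Matrix.transpose_apply, mul_comm]

theorem mFourier_iter (A : Matrix (Fin d) (Fin d) ℤ) (m : Fin d → ℤ) (n : ℕ)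
    (x : UnitAddTorus (Fin d)) :
    mFourier m ((toralMap A)^[n] x) = mFourier ((A.transpose ^ n).mulVec m) x := by
  induction n generalizing m with
  | zero => simp
  | succ n ih =>
    rw [Function.iterate_succ_apply', mFourier_toral, ih, Matrix.mulVec_mulVec, ← pow_succ]

theorem mFourier_sum {J : Type*} (s : Finset J) (v : J → Fin d → ℤ) (x : UnitAddTorus (Fin d)) :
    ∏ j ∈ s, mFourier (v j) x = mFourier (∑ j ∈ s, v j) x := by
  classical
  induction s using Finset.induction_on with
  | empty =>
    rw [Finset.prod_empty, Finset.sum_empty, mFourier_zero]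
    rfl
  | insert a s ha ih =>
    rw [Finset.prod_insert ha, Finset.sum_insert ha, mFourier_add, ih]

theorem toralMap_mul (A B : Matrix (Fin d) (Fin d) ℤ) (x : UnitAddTorus (Fin d)) :
    toralMap (A * B) x = toralMap A (toralMap B x) := by
  funext i
  show ∑ k, (A * B) i k • x k = ∑ j, A i j • ∑ k, B j k • x k
  simp_rw [Matrix.mul_apply, Finset.sum_smul, Finset.smul_sum, mul_smul]
  exact Finset.sum_comm

/-- The endomorphism as a homomorphism. -/
def toralHom (A : Matrix (Fin d) (Fin d) ℤ) : UnitAddTorus (Fin d) →+ UnitAddTorus (Fin d) where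
  toFun := toralMap A
  map_zero' := by
    funext i
    show ∑ k, A i k • (0 : UnitAddCircle) = 0
    simp
  map_add' x y := by
    funext i
    show ∑ k, A i k • (x k + y k) = ∑ k, A i k • x k + ∑ k, A i k • y k
    simp_rw [smul_add, Finset.sum_add_distrib]

theorem toral_cont (A : Matrix (Fin d) (Fin d) ℤ) : Continuous (toralMap A) := by
  apply continuous_pi
  intro i
  show Continuous fun x : UnitAddTorus (Fin d) => ∑ k, A i k • x k
  exact continuous_finsetSum _ fun k _ => (continuous_apply k).zsmul (A i k)

theorem toral_surj {A : Matrix (Fin d) (Fin d) ℤ} (hA : A.det ≠ 0) :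
    Function.Surjective (toralMap A) := by
  intro y
  have hz : ∀ i, ∃ z : UnitAddCircle, A.det • z = y i := by
    intro i
    obtain ⟨a, ha⟩ := QuotientAddGroup.mk_surjective (y i)
    refine ⟨((a / A.det : ℝ) : UnitAddCircle), ?_⟩
    rw [← AddCircle.coe_zsmul, zsmul_eq_mul, mul_div_cancel₀]
    · exact ha
    · exact_mod_cast hA
  choose z hz using hz
  refine ⟨toralMap A.adjugate z, ?_⟩
  rw [← toralMap_mul, Matrix.mul_adjugate]
  funext i
  show ∑ k, (A.det • (1 : Matrix (Fin d) (Fin d) ℤ)) i k • z k = y i
  rw [Finset.sum_eq_single i]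
  · rw [Matrix.smul_apply, Matrix.one_apply_eq, smul_eq_mul, mul_one, hz]
  · intro k _ hk
    rw [Matrix.smul_apply, Matrix.one_apply_ne (Ne.symm hk), smul_zero, zero_smul]
  · intro h
    exact absurd (Finset.mem_univ i) h

instance : (haarT d).IsAddHaarMeasure := by
  unfold haarT
  infer_instance

theorem toral_mp {A : Matrix (Fin d) (Fin d) ℤ} (hA : A.det ≠ 0) :
    MeasurePreserving (toralMap A) (haarT d) (haarT d) :=
  AddMonoidHom.measurePreserving (f := toralHom A) (toral_cont A) (toral_surj hA) rfl

theorem trig_dense {f : UnitAddTorus (Fin d) → ℂ} (hf : BM f) {ε : ℝ} (hε : 0 < ε) :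
    ∃ p : C(UnitAddTorus (Fin d), ℂ), p ∈ Submodule.span ℂ (Set.range (mFourier (d := Fin d))) ∧
      ∫ x, ‖f x - p x‖ ∂(haarT d) ≤ ε := by
  obtain ⟨hfm, C, hC⟩ := hf
  have hfi : Integrable f (haarT d) :=
    Integrable.mono' (integrable_const C) hfm.aestronglyMeasurable (Eventually.of_forall hC)
  obtain ⟨g, hg, hgi⟩ := hfi.exists_boundedContinuous_integral_sub_le (show 0 < ε / 2 by positivity)
  have hmem : g.toContinuousMap ∈
      (Submodule.span ℂ (Set.range (mFourier (d := Fin d)))).topologicalClosure := by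
    rw [span_mFourier_closure_eq_top]
    exact Submodule.mem_top
  rw [← SetLike.mem_coe, Submodule.topologicalClosure_coe, Metric.mem_closure_iff] at hmem
  obtain ⟨p, hp, hgp⟩ := hmem (ε / 2) (by positivity)
  refine ⟨p, hp, ?_⟩
  have hpi : Integrable p (haarT d) := cont_int p.continuous
  have h1 : ∀ x, ‖f x - p x‖ ≤ ‖f x - g x‖ + ε / 2 := by
    intro x
    have e1 : f x - p x = (f x - g x) + (g x - p x) := by ring
    rw [e1]
    refine (norm_add_le _ _).trans (add_le_add le_rfl ?_)
    have h2 := ContinuousMap.dist_apply_le_dist (f := g.toContinuousMap) (g := p) x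
    rw [dist_eq_norm] at h2
    exact h2.trans hgp.le
  calc ∫ x, ‖f x - p x‖ ∂(haarT d) ≤ ∫ x, (‖f x - g x‖ + ε / 2) ∂(haarT d) :=
        integral_mono (hfi.sub hpi).norm ((hfi.sub hgi).norm.add (integrable_const _)) h1
    _ = ∫ x, ‖f x - g x‖ ∂(haarT d) + ε / 2 := by
        have h3 : Integrable (fun x => ‖f x - g x‖) (haarT d) := (hfi.sub hgi).norm
        rw [integral_add h3 (integrable_const _), integral_const]
        simp
    _ ≤ ε := by linarith

section main

variable {J : Type*} [Fintype J] [DecidableEq J]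

theorem chars {A : J → Matrix (Fin d) (Fin d) ℤ} (hA : ∀ j, (A j).det ≠ 0)
    {F : J → UnitAddTorus (Fin d) → ℂ} (hF : ∀ j, ∃ m, F j = mFourier m) :
    Cv (haarT d) (fun j => toralMap (A j)) F := by
  choose m hm using hF
  set B : J → Matrix (Fin d) (Fin d) ℤ := fun j => (A j).transpose with hB
  obtain ⟨q, hq, hcl⟩ := classes B (fun j => by
    rw [hB]
    simpa using hA j) m
  have hprod : ∀ (n : ℕ) (x : UnitAddTorus (Fin d)),
      ∏ j, F j ((toralMap (A j))^[n] x) = mFourier (psi B m n) x := by
    intro n x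
    rw [psi, ← mFourier_sum]
    apply Finset.prod_congr rfl
    intro j _
    rw [hm j, mFourier_iter]
  have hr : ∀ r, ∀ᵐ x ∂(haarT d), ∃ L, Tendsto (fun N : ℕ => (N : ℂ)⁻¹ *
      ∑ n ∈ Finset.range N, mFourier (psi B m (r + q * n)) x) atTop (𝓝 L) := by
    intro r
    rcases hcl r with h | ⟨K, hK⟩
    · refine Eventually.of_forall fun x => ⟨mFourier (psi B m r) x, ?_⟩
      apply tendsto_const_nhds.congr'
      filter_upwards [eventually_ge_atTop 1] with N hN
      have hN0 : (N : ℂ) ≠ 0 := by
        have : N ≠ 0 := by omega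
        exact_mod_cast this
      rw [Finset.sum_congr rfl fun n _ => by rw [h n], Finset.sum_const, Finset.card_range,
        nsmul_eq_mul, ← mul_assoc, inv_mul_cancel₀ hN0, one_mul]
    · filter_upwards [ae_zero (fun n => psi B m (r + q * n)) hK] with x hx
      exact ⟨0, hx⟩
  filter_upwards [ae_all_iff.mpr hr] with x hx
  obtain ⟨L, hL⟩ := avg_classes (u := fun n => mFourier (psi B m n) x) (C := 1) (fun n => by
    calc ‖mFourier (psi B m n) x‖ ≤ ‖mFourier (psi B m n)‖ := ContinuousMap.norm_coe_le_norm _ x
      _ = 1 := mFourier_norm) hq hx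
  refine ⟨L, hL.congr fun N => ?_⟩
  rw [Av]
  congr 1
  exact Finset.sum_congr rfl fun n _ => (hprod n x).symm

theorem all_conv {A : J → Matrix (Fin d) (Fin d) ℤ} (hA : ∀ j, (A j).det ≠ 0)
    {F : J → UnitAddTorus (Fin d) → ℂ} (hF : ∀ j, BM (F j)) :
    Cv (haarT d) (fun j => toralMap (A j)) F := by
  have hbm : ∀ p : C(UnitAddTorus (Fin d), ℂ), BM p := fun p =>
    ⟨p.continuous.measurable, ‖p‖, fun x => ContinuousMap.norm_coe_le_norm p x⟩
  have key : ∀ S : Finset J, ∀ F : J → UnitAddTorus (Fin d) → ℂ, (∀ j, BM (F j)) →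
      (∀ j, j ∉ S → ∃ m, F j = mFourier m) → Cv (haarT d) (fun j => toralMap (A j)) F := by
    intro S
    induction S using Finset.induction_on with
    | empty =>
      intro F _ h
      exact chars hA fun j => h j (Finset.notMem_empty j)
    | insert j S hj ih =>
      intro F hF h
      rw [← Function.update_eq_self j F]
      apply Cv_closed (fun l => toral_mp (hA l)) hF (hF j)
      intro ε hε
      obtain ⟨p, hp, hpf⟩ := trig_dense (hF j) hε
      refine ⟨p, hbm p, hpf, ?_⟩
      refine Submodule.span_induction (p := fun (p : C(UnitAddTorus (Fin d), ℂ)) _ =>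
        Cv (haarT d) (fun j => toralMap (A j)) (Function.update F j p)) ?_ ?_ ?_ ?_ hp
      · rintro _ ⟨m, rfl⟩
        apply ih
        · intro l
          by_cases hl : l = j
          · subst hl
            rw [Function.update_self]
            exact hbm _
          · rw [Function.update_of_ne hl]
            exact hF l
        · intro l hl
          by_cases hlj : l = j
          · subst hlj
            exact ⟨m, by rw [Function.update_self]⟩
          · rw [Function.update_of_ne hlj]
            exact h l (by
              rw [Finset.mem_insert]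
              tauto)
      · exact Cv_zero
      · intro p q _ _ h1 h2
        exact Cv_add h1 h2
      · intro c p _ h1
        exact Cv_smul c h1
  exact key Finset.univ F hF fun j hj => absurd (Finset.mem_univ j) hj

end main

end Pool.Agent.H922R3.TA
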