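import Pool.Agent.H922R3.TA.Defs2
import Pool.Agent.H922R3.TA.Dens
import Pool.Agent.H922R3.TA.Erg2

set_option autoImplicit false
set_option linter.unusedSectionVars false

open Filter Topology MeasureTheory UnitAddTorus

noncomputable section

namespace Pool.Agent.H922R3.TA

variable {d : ℕ} {Y : Type*} [MeasurableSpace Y] {ν : Measure Y} [IsProbabilityMeasure ν]

theorem mFourier_arg_add (m : Fin d → ℤ) (x x' : UnitAddTorus (Fin d)) :
    mFourier m (x + x') = mFourier m x * mFourier m x' := by
  rw [mFourier_eq, mFourier_eq, mFourier_eq, ← Circle.coe_mul, ← AddCircle.toCircle_add,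
    ← Finset.sum_add_distrib]
  congr 2
  apply Finset.sum_congr rfl
  intro i _
  rw [Pi.add_apply, smul_add]

theorem toralMap_add (A : Matrix (Fin d) (Fin d) ℤ) (x x' : UnitAddTorus (Fin d)) :
    toralMap A (x + x') = toralMap A x + toralMap A x' := (toralHom A).map_add x x'

theorem skew_iter (A : Matrix (Fin d) (Fin d) ℤ) (S : Y → Y) (φ : Y → UnitAddTorus (Fin d))
    (n : ℕ) (y : Y) (x : UnitAddTorus (Fin d)) :
    (skewMap A S φ)^[n] (y, x) =
      (S^[n] y, (toralMap A)^[n] x + ((skewMap A S φ)^[n] (y, 0)).2) := by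
  have h0 : ∀ n : ℕ, ((skewMap A S φ)^[n] (y, 0)).1 = S^[n] y := by
    intro n
    induction n with
    | zero => rfl
    | succ n ih =>
      rw [Function.iterate_succ_apply', Function.iterate_succ_apply']
      show S _ = _
      rw [ih]
  induction n with
  | zero =>
    show (y, x) = (y, x + 0)
    rw [add_zero]
  | succ n ih =>
    rw [Function.iterate_succ_apply', ih, Function.iterate_succ_apply' (skewMap A S φ),
      Function.iterate_succ_apply' S, Function.iterate_succ_apply' (toralMap A)]
    show (S (S^[n] y), toralMap A ((toralMap A)^[n] x + ((skewMap A S φ)^[n] (y, 0)).2) +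
      φ (S^[n] y)) = (_, _ + (toralMap A ((skewMap A S φ)^[n] (y, 0)).2 +
      φ ((skewMap A S φ)^[n] (y, 0)).1))
    rw [toralMap_add, h0, add_assoc]

theorem skew_meas {A : Matrix (Fin d) (Fin d) ℤ} {S : Y → Y} (hS : Measurable S)
    {φ : Y → UnitAddTorus (Fin d)} (hφ : Measurable φ) : Measurable (skewMap A S φ) :=
  (hS.comp measurable_fst).prodMk
    (((toral_cont A).measurable.comp measurable_snd).add (hφ.comp measurable_fst))

theorem skew_mp {A : Matrix (Fin d) (Fin d) ℤ} (hA : A.det ≠ 0) {S : Y → Y}
    (hS : MeasurePreserving S ν ν) {φ : Y → UnitAddTorus (Fin d)} (hφ : Measurable φ) :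
    MeasurePreserving (skewMap A S φ) (ν.prod (haarT d)) (ν.prod (haarT d)) := by
  refine hS.skew_product (g := fun y x => toralMap A x + φ y) ?_ ?_
  · exact ((toral_cont A).measurable.comp measurable_snd).add (hφ.comp measurable_fst)
  · refine Eventually.of_forall fun y => ?_
    have h1 : MeasurePreserving (fun x => x + φ y) (haarT d) (haarT d) :=
      measurePreserving_add_right (haarT d) (φ y)
    exact (h1.comp (toral_mp hA)).map_eq

section main

variable {J : Type*} [Fintype J] [DecidableEq J]

theorem indep_class {A : J → Matrix (Fin d) (Fin d) ℤ} (hA : ∀ j, (A j).det ≠ 0) (hI : Indep A)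
    {m : J → Fin d → ℤ} {q : ℕ} (hq : 1 ≤ q) (r : ℕ)
    (h : ∀ n, psi (fun j => (A j).transpose) m (r + q * n) =
      psi (fun j => (A j).transpose) m r) : ∀ j, m j = 0 := by
  have h1 := hI q hq (fun j => ((A j).transpose ^ r).mulVec (m j)) (by
    intro n
    have h2 := h n
    rw [psi, psi] at h2
    rw [← h2]
    apply Finset.sum_congr rfl
    intro j _
    rw [Matrix.mulVec_mulVec, ← pow_add, add_comm (q * n) r])
  intro j
  have h3 := h1 j
  have hdet : ((A j).transpose ^ r).det ≠ 0 := by
    rw [Matrix.det_pow, Matrix.det_transpose]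
    exact pow_ne_zero _ (hA j)
  exact Matrix.eq_zero_of_mulVec_eq_zero hdet h3

theorem base_conv {S : J → Y → Y} (hS : ∀ j, MeasurePreserving (S j) ν ν)
    (hY : (∀ i j, S i = S j) ∨ ∀ q : ℕ, 1 ≤ q → Good ν fun j => (S j)^[q])
    {D : J → Set Y} (hD : ∀ j, MeasurableSet (D j)) {q : ℕ} (hq : 1 ≤ q) (r : ℕ) :
    ∀ᵐ y ∂ν, ∃ L : ℂ, Tendsto (fun N : ℕ => (N : ℂ)⁻¹ *
      ∑ n ∈ Finset.range N, ∏ j, (D j).indicator (fun _ => (1 : ℂ)) ((S j)^[r + q * n] y))
        atTop (𝓝 L) := by
  rcases hY with hY | hY
  · rcases isEmpty_or_nonempty J with hJ | ⟨⟨j₀⟩⟩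
    · refine Eventually.of_forall fun y => ⟨1, ?_⟩
      apply tendsto_const_nhds.congr'
      filter_upwards [eventually_ge_atTop 1] with N hN
      have hN0 : (N : ℂ) ≠ 0 := by
        have : N ≠ 0 := by omega
        exact_mod_cast this
      simp [hN0]
    · set E : Set Y := ⋂ j, D j with hE
      have hEm : MeasurableSet E := MeasurableSet.iInter hD
      let k : Y → ℝ := fun y => E.indicator (fun _ => (1 : ℝ)) ((S j₀)^[r] y)
      have hkm : Measurable k :=
        (measurable_const.indicator hEm).comp ((hS j₀).iterate r).measurable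
      have hkb : ∀ y, |k y| ≤ 1 := by
        intro y
        show |E.indicator (fun _ => (1 : ℝ)) ((S j₀)^[r] y)| ≤ 1
        by_cases hy : (S j₀)^[r] y ∈ E
        · rw [Set.indicator_of_mem hy, abs_one]
        · rw [Set.indicator_of_notMem hy, abs_zero]
          exact zero_le_one
      have hB := H165R3.BPE.birkhoff ((hS j₀).iterate q) k hkm 1 hkb
      filter_upwards [hB] with y hy
      refine ⟨_, (Complex.continuous_ofReal.tendsto _ |>.comp hy).congr fun N => ?_⟩
      rw [Function.comp_apply]
      push_cast
      congr 1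
      apply Finset.sum_congr rfl
      intro n _
      have e1 : ∀ j, (S j)^[r + q * n] y = (S j₀)^[r] (((S j₀)^[q])^[n] y) := by
        intro j
        rw [hY j j₀, Function.iterate_add_apply, Function.iterate_mul]
      show ((E.indicator (fun _ => (1 : ℝ)) ((S j₀)^[r] (((S j₀)^[q])^[n] y)) : ℝ) : ℂ) = _
      rw [Finset.prod_congr rfl fun j _ => by rw [e1 j]]
      set w := (S j₀)^[r] (((S j₀)^[q])^[n] y)
      by_cases hw : w ∈ E
      · rw [Set.indicator_of_mem hw, Finset.prod_eq_one]
        · simp
        · intro j _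
          exact Set.indicator_of_mem (Set.mem_iInter.mp hw j) _
      · rw [Set.indicator_of_notMem hw]
        rw [hE, Set.mem_iInter, not_forall] at hw
        obtain ⟨j, hj⟩ := hw
        rw [Finset.prod_eq_zero (Finset.mem_univ j) (Set.indicator_of_notMem hj _)]
        simp
  · have h1 := hY q hq (fun j y => (D j).indicator (fun _ => (1 : ℂ)) ((S j)^[r] y))
      (fun j => (measurable_const.indicator (hD j)).comp ((hS j).iterate r).measurable)
      (fun j => ⟨1, fun y => by
        by_cases hy : (S j)^[r] y ∈ D j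
        · rw [Set.indicator_of_mem hy, norm_one]
        · rw [Set.indicator_of_notMem hy, norm_zero]
          exact zero_le_one⟩)
    filter_upwards [h1] with y hy
    obtain ⟨L, hL⟩ := hy
    refine ⟨L, hL.congr fun N => ?_⟩
    congr 1
    apply Finset.sum_congr rfl
    intro n _
    apply Finset.prod_congr rfl
    intro j _
    rw [Function.iterate_add_apply, Function.iterate_mul]

theorem chars_skew {A : J → Matrix (Fin d) (Fin d) ℤ} (hA : ∀ j, (A j).det ≠ 0)
    {S : J → Y → Y} (hS : ∀ j, MeasurePreserving (S j) ν ν)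
    {φ : J → Y → UnitAddTorus (Fin d)} (hφ : ∀ j, Measurable (φ j))
    (hI : Indep A ∨ ∀ j y, φ j y = 0)
    (hY : (∀ i j, S i = S j) ∨ ∀ q : ℕ, 1 ≤ q → Good ν fun j => (S j)^[q])
    {F : J → Y × UnitAddTorus (Fin d) → ℂ}
    (hF : ∀ j, ∃ (D : Set Y) (m : Fin d → ℤ), MeasurableSet D ∧ F j = base D m) :
    Cv (ν.prod (haarT d)) (fun j => skewMap (A j) (S j) (φ j)) F := by
  choose D m hD hm using hF
  set B : J → Matrix (Fin d) (Fin d) ℤ := fun j => (A j).transpose with hB
  obtain ⟨q, hq, hcl⟩ := classes B (fun j => by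
    rw [hB]
    simpa using hA j) m
  let c : ℕ → Y → ℂ := fun n y => ∏ j, ((D j).indicator (fun _ => (1 : ℂ)) ((S j)^[n] y) *
    mFourier (m j) ((skewMap (A j) (S j) (φ j))^[n] (y, 0)).2)
  have hc1 : ∀ n y, ‖c n y‖ ≤ 1 := by
    intro n y
    show ‖∏ j, _‖ ≤ 1
    rw [norm_prod]
    apply Finset.prod_le_one (fun _ _ => norm_nonneg _)
    intro j _
    rw [norm_mul]
    apply mul_le_one₀ _ (norm_nonneg _) (mFourier_le _ _)
    by_cases hy : (S j)^[n] y ∈ D j
    · rw [Set.indicator_of_mem hy, norm_one]
    · rw [Set.indicator_of_notMem hy, norm_zero]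
      exact zero_le_one
  have hcm : ∀ n, Measurable (c n) := by
    intro n
    apply Finset.measurable_prod
    intro j _
    apply Measurable.mul
    · exact (measurable_const.indicator (hD j)).comp ((hS j).iterate n).measurable
    · exact (mFourier (m j)).continuous.measurable.comp
        (measurable_snd.comp (((skew_meas (hS j).measurable (hφ j)).iterate n).comp
          (measurable_id.prodMk measurable_const)))
  have hprod : ∀ (n : ℕ) (y : Y) (x : UnitAddTorus (Fin d)),
      ∏ j, F j ((skewMap (A j) (S j) (φ j))^[n] (y, x)) = c n y * mFourier (psi B m n) x := by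
    intro n y x
    rw [psi, ← mFourier_sum, ← Finset.prod_mul_distrib]
    apply Finset.prod_congr rfl
    intro j _
    rw [hm j, skew_iter]
    show (D j).indicator (fun _ => (1 : ℂ)) ((S j)^[n] y) * mFourier (m j) (_ + _) = _
    rw [mFourier_arg_add, mFourier_iter]
    ring
  have hr : ∀ r, ∀ᵐ z ∂(ν.prod (haarT d)), ∃ L, Tendsto (fun N : ℕ => (N : ℂ)⁻¹ *
      ∑ n ∈ Finset.range N, (c (r + q * n) z.1 * mFourier (psi B m (r + q * n)) z.2))
        atTop (𝓝 L) := by
    intro r
    rcases hcl r with h | ⟨K, hK⟩
    · -- constant frequencies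
      have hcc : ∀ᵐ y ∂ν, ∃ L : ℂ, Tendsto (fun N : ℕ => (N : ℂ)⁻¹ *
          ∑ n ∈ Finset.range N, c (r + q * n) y) atTop (𝓝 L) := by
        have hphase : ∀ n y, c n y = ∏ j, (D j).indicator (fun _ => (1 : ℂ)) ((S j)^[n] y) := by
          intro n y
          apply Finset.prod_congr rfl
          intro j _
          rcases hI with hI | hI
          · rw [indep_class hA hI hq r h j, mFourier_zero]
            show _ * (1 : ℂ) = _
            rw [mul_one]
          · have e1 : ∀ n : ℕ, ((skewMap (A j) (S j) (φ j))^[n] (y, 0)).2 = 0 := by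
              intro n
              induction n with
              | zero => rfl
              | succ n ih =>
                rw [Function.iterate_succ_apply']
                show toralMap (A j) _ + φ j _ = 0
                rw [ih, hI, add_zero]
                exact (toralHom (A j)).map_zero
            rw [e1]
            have e2 : mFourier (m j) (0 : UnitAddTorus (Fin d)) = 1 := by
              rw [mFourier_eq]
              simp
            rw [e2, mul_one]
        filter_upwards [base_conv hS hY hD hq r] with y hy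
        obtain ⟨L, hL⟩ := hy
        refine ⟨L, hL.congr fun N => ?_⟩
        congr 1
        exact Finset.sum_congr rfl fun n _ => (hphase _ y).symm
      have hq1 : ∀ᵐ z ∂(ν.prod (haarT d)), ∃ L : ℂ, Tendsto (fun N : ℕ => (N : ℂ)⁻¹ *
          ∑ n ∈ Finset.range N, c (r + q * n) z.1) atTop (𝓝 L) :=
        Measure.quasiMeasurePreserving_fst.ae hcc
      filter_upwards [hq1] with z hz
      obtain ⟨L, hL⟩ := hz
      refine ⟨L * mFourier (psi B m r) z.2, (hL.mul_const _).congr fun N => ?_⟩
      rw [mul_assoc, Finset.sum_mul]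
      congr 1
      exact Finset.sum_congr rfl fun n _ => by rw [h n]
    · have hms : MeasurableSet {z : Y × UnitAddTorus (Fin d) | Tendsto (fun N : ℕ => (N : ℂ)⁻¹ *
          ∑ n ∈ Finset.range N, (c (r + q * n) z.1 * mFourier (psi B m (r + q * n)) z.2))
            atTop (𝓝 0)} := by
        apply measurableSet_tendsto
        intro N
        apply measurable_const.mul
        apply Finset.measurable_sum
        intro n _
        exact ((hcm _).comp measurable_fst).mul
          ((mFourier _).continuous.measurable.comp measurable_snd)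
      have hz := (Measure.ae_prod_mem_iff_ae_ae_mem (μ := ν) (ν := haarT d) hms).mpr
        (Eventually.of_forall fun y => ae_zero_w (fun n => psi B m (r + q * n))
          (fun n => c (r + q * n) y) (fun n => hc1 _ y) hK)
      filter_upwards [hz] with z hz'
      exact ⟨0, hz'⟩
  filter_upwards [ae_all_iff.mpr hr] with z hz
  obtain ⟨L, hL⟩ := avg_classes (u := fun n => c n z.1 * mFourier (psi B m n) z.2) (C := 1)
    (fun n => by
      rw [norm_mul]
      exact mul_le_one₀ (hc1 _ _) (norm_nonneg _) (mFourier_le _ _)) hq hz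
  refine ⟨L, hL.congr fun N => ?_⟩
  rw [Av]
  congr 1
  exact Finset.sum_congr rfl fun n _ => (hprod n z.1 z.2).symm

theorem base_bm {D : Set Y} (hD : MeasurableSet D) (m : Fin d → ℤ) : BM (base D m) :=
  ((BM.ind hD).comp measurable_fst).mul ((BM.cont (mFourier m)).comp measurable_snd)

theorem all_skew {A : J → Matrix (Fin d) (Fin d) ℤ} (hA : ∀ j, (A j).det ≠ 0)
    {S : J → Y → Y} (hS : ∀ j, MeasurePreserving (S j) ν ν)
    {φ : J → Y → UnitAddTorus (Fin d)} (hφ : ∀ j, Measurable (φ j))
    (hI : Indep A ∨ ∀ j y, φ j y = 0)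
    (hY : (∀ i j, S i = S j) ∨ ∀ q : ℕ, 1 ≤ q → Good ν fun j => (S j)^[q])
    {F : J → Y × UnitAddTorus (Fin d) → ℂ} (hF : ∀ j, BM (F j)) :
    Cv (ν.prod (haarT d)) (fun j => skewMap (A j) (S j) (φ j)) F := by
  have key : ∀ P : Finset J, ∀ F : J → Y × UnitAddTorus (Fin d) → ℂ, (∀ j, BM (F j)) →
      (∀ j, j ∉ P → ∃ (D : Set Y) (m : Fin d → ℤ), MeasurableSet D ∧ F j = base D m) →
      Cv (ν.prod (haarT d)) (fun j => skewMap (A j) (S j) (φ j)) F := by
    intro P
    induction P using Finset.induction_on with
    | empty =>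
      intro F _ h
      exact chars_skew hA hS hφ hI hY fun j => h j (Finset.notMem_empty j)
    | insert j P hj ih =>
      intro F hF h
      rw [← Function.update_eq_self j F]
      refine all_of_closed (ν := ν) (fun f => Cv (ν.prod (haarT d))
        (fun j => skewMap (A j) (S j) (φ j)) (Function.update F j f))
        (fun f g hf hg => Cv_add hf hg) (fun c f hf => Cv_smul c hf) Cv_zero ?_ ?_ (F j) (hF j)
      · intro f hf hcl
        exact Cv_closed (fun l => skew_mp (hA l) (hS l) (hφ l)) hF hf hcl
      · intro D hD m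
        apply ih
        · intro l
          by_cases hl : l = j
          · subst hl
            rw [Function.update_self]
            exact base_bm hD m
          · rw [Function.update_of_ne hl]
            exact hF l
        · intro l hl
          by_cases hlj : l = j
          · subst hlj
            exact ⟨D, m, hD, by rw [Function.update_self]⟩
          · rw [Function.update_of_ne hlj]
            exact h l (by
              rw [Finset.mem_insert]
              tauto)
  exact key Finset.univ F hF fun j hj => absurd (Finset.mem_univ j) hj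

end main

end Pool.Agent.H922R3.TA
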